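import Pool.Agent.H44.GT.Targets

/-!
# MP_81a758_an: two invariant measures whose classes differ by the class of the scales
-/

set_option autoImplicit false

namespace Pool.Agent.H56.GD

open Pool.Agent.H44.DU MeasureTheory Set

variable {n : ℕ} (S : Surf n)

/-- the range of a triangle is not degenerate -/
theorem xl_lt_xr (t : ℝ) (i : Fin n) : S.xl t i < S.xr t i := by
  by_contra hcon
  push Not at hcon
  have h0 : S.xl t i ≤ xi t (S.v i 0) := min_le_left _ _
  have h1 : S.xl t i ≤ xi t (S.v i 1) := (min_le_right _ _).trans (min_le_left _ _)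
  have h2 : S.xl t i ≤ xi t (S.v i 2) := (min_le_right _ _).trans (min_le_right _ _)
  have k0 : xi t (S.v i 0) ≤ S.xr t i := le_max_left _ _
  have k1 : xi t (S.v i 1) ≤ S.xr t i := (le_max_left _ _).trans (le_max_right _ _)
  have k2 : xi t (S.v i 2) ≤ S.xr t i := (le_max_right _ _).trans (le_max_right _ _)
  have e1 : xi t (S.v i 1 - S.v i 0) = 0 := by rw [xi_sub]; linarith
  have e2 : xi t (S.v i 2 - S.v i 0) = 0 := by rw [xi_sub]; linarith
  have ho := S.orient i
  unfold xi at e1 e2
  have e3 : (S.v i 1 - S.v i 0).re = t * (S.v i 1 - S.v i 0).im := by linarith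
  have e4 : (S.v i 2 - S.v i 0).re = t * (S.v i 2 - S.v i 0).im := by linarith
  rw [e3, e4] at ho
  have : t * (S.v i 1 - S.v i 0).im * (S.v i 2 - S.v i 0).im -
    (S.v i 1 - S.v i 0).im * (t * (S.v i 2 - S.v i 0).im) = 0 := by ring
  linarith

/-- the distribution function as an interval integral -/
theorem pf_eq (t : ℝ) (f : Fin n → ℝ → ℝ) (i : Fin n) {x : ℝ} (h1 : S.xl t i ≤ x)
    (h2 : x ≤ S.xr t i) : S.pf t f i x = ∫ y in (S.xl t i)..x, f i y := by
  rw [Surf.pf, Set.Ioo_inter_Iio, min_eq_right h2, intervalIntegral.integral_of_le h1,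
    integral_Ioc_eq_integral_Ioo]

/-- a positive continuous density -/
theorem den_of_cont (t : ℝ) (f : Fin n → ℝ → ℝ) (hn : 0 < n) (hc : ∀ i, Continuous (f i))
    (hp : ∀ i x, 0 < f i x)
    (hg : ∀ r x, S.InJ t r x → f (S.gl r).1 (S.mv t r x) = f r.1 x / S.a r) :
    S.LD t f ∧ S.SInc t (S.pf t f) := by
  refine ⟨⟨fun i => (hc i).measurable, fun i x => (hp i x).le, ?_, ?_, ?_⟩, ?_⟩
  · intro i
    exact (((hc i).pow 2).integrableOn_Icc).mono_set Ioo_subset_Icc_self
  · intro r
    exact Filter.Eventually.of_forall fun x hx => hg r x hx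
  · refine ⟨⟨0, hn⟩, ?_⟩
    rw [← integral_Ioc_eq_integral_Ioo, ← intervalIntegral.integral_of_le (xl_lt_xr S t _).le]
    exact intervalIntegral.intervalIntegral_pos_of_pos_on ((hc _).intervalIntegrable _ _)
      (fun x _ => hp _ x) (xl_lt_xr S t _)
  · intro i x y h1 h2 h3
    rw [pf_eq S t f i h1 (h2.le.trans h3), pf_eq S t f i (h1.trans h2.le) h3]
    have h4 := intervalIntegral.integral_add_adjacent_intervals
      ((hc i).intervalIntegrable (μ := volume) (S.xl t i) x)
      ((hc i).intervalIntegrable (μ := volume) x y)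
    have h5 : 0 < ∫ z in x..y, f i z :=
      intervalIntegral.intervalIntegral_pos_of_pos_on ((hc _).intervalIntegrable _ _)
        (fun x _ => hp _ x) h2
    linarith

theorem pf_U_DEN : U_DEN := by
  intro n S t p p' r φ κ hn _ hr hφ hp hp' hκ hcc
  set D : Fin n → ℝ → ℝ := fun i x => (p' i x - p i x) / κ with hD
  set psi : Side n → ℝ := fun c => Real.log (r c) + φ c / κ with hpsi
  set H : Fin n → ℝ → ℝ := fun i x => D i x - D i (xi t (S.v i 0)) + psi (i, 0) with hH
  have hDs : ∀ s : Side n, D s.1 (xi t (S.Q s)) - D s.1 (xi t (S.P s)) = psi (nx s) - psi s := by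
    intro s
    have h1 := hcc s
    unfold Surf.cc Surf.coh at h1
    simp only [hD, hpsi]
    have h2 : (p' s.1 (xi t (S.Q s)) - p s.1 (xi t (S.Q s))) -
        (p' s.1 (xi t (S.P s)) - p s.1 (xi t (S.P s))) =
        κ * (Real.log (r (nx s)) - Real.log (r s)) + (φ (nx s) - φ s) := by linarith
    rw [← sub_div, h2]
    field_simp
    ring
  have hHc : ∀ c : Side n, H c.1 (xi t (S.P c)) = psi c := by
    rintro ⟨i, k⟩
    have e0 := hDs (i, 0)
    have e1 := hDs (i, 1)
    simp only [Surf.P, Surf.Q, nx] at e0 e1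
    have z1 : (0 : Fin 3) + 1 = 1 := rfl
    have z2 : (1 : Fin 3) + 1 = 2 := rfl
    rw [z1] at e0
    rw [z2] at e1
    simp only [Surf.P, hH]
    fin_cases k
    · show D i (xi t (S.v i 0)) - D i (xi t (S.v i 0)) + psi (i, 0) = psi (i, 0)
      ring
    · show D i (xi t (S.v i 1)) - D i (xi t (S.v i 0)) + psi (i, 0) = psi (i, 1)
      linarith
    · show D i (xi t (S.v i 2)) - D i (xi t (S.v i 0)) + psi (i, 0) = psi (i, 2)
      linarith
  have hglue : ∀ (q : Side n) (x : ℝ), xi t (S.Q q) ≤ x → x ≤ xi t (S.P q) →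
      H (S.gl q).1 (S.mv t q x) = H q.1 x + Real.log (S.a q) := by
    intro q x h1 h2
    have g1 := hp.glue q (xi t (S.Q q)) x le_rfl h1 h2
    have g2 := hp'.glue q (xi t (S.Q q)) x le_rfl h1 h2
    rw [← S.xi_P_gl] at g1 g2
    have g3 : H (S.gl q).1 (S.mv t q x) - H (S.gl q).1 (xi t (S.P (S.gl q))) =
        H q.1 x - H q.1 (xi t (S.Q q)) := by
      simp only [hH, hD]
      have g4 : (p' (S.gl q).1 (S.mv t q x) - p (S.gl q).1 (S.mv t q x)) -
          (p' (S.gl q).1 (xi t (S.P (S.gl q))) - p (S.gl q).1 (xi t (S.P (S.gl q)))) =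
          (p' q.1 x - p q.1 x) - (p' q.1 (xi t (S.Q q)) - p q.1 (xi t (S.Q q))) := by linarith
      have g5 := congrArg (fun z => z / κ) g4
      simp only [sub_div] at g5 ⊢
      linarith
    have g6 : H q.1 (xi t (S.Q q)) = psi (nx q) := hHc (nx q)
    rw [hHc (S.gl q), g6] at g3
    have g7 : psi (S.gl q) - psi (nx q) = Real.log (S.a q) := by
      have k1 := (hr (S.gl q)).2
      have k2 := hφ (S.gl q)
      rw [S.gl_gl] at k1 k2
      have k3 : S.a (S.gl q) * S.a q = 1 := by
        first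
          | exact S.a_gl_mul q
          | (rw [S.a_gl]; field_simp [(S.a_pos q).ne'])
      have k4 : r (S.gl q) = S.a q * r (nx q) := by
        rw [k1, ← mul_assoc, mul_comm (S.a q), k3, one_mul]
      simp only [hpsi]
      rw [k4, Real.log_mul (S.a_pos q).ne' (hr _).1.ne', k2]
      ring
    linarith
  refine ⟨fun i x => Real.exp (-H i x), den_of_cont S t _ hn ?_ (fun i x => Real.exp_pos _) ?_⟩
  · intro i
    refine Real.continuous_exp.comp (Continuous.neg ?_)
    exact ((((hp'.cont i).sub (hp.cont i)).div_const κ).sub continuous_const).add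
      continuous_const
  · intro q x hx
    show Real.exp (-H (S.gl q).1 (S.mv t q x)) = Real.exp (-H q.1 x) / S.a q
    rw [hglue q x hx.1.le hx.2.le, neg_add, Real.exp_add, Real.exp_neg (Real.log (S.a q)),
      Real.exp_log (S.a_pos q), div_eq_mul_inv]

end Pool.Agent.H56.GD
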